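import Pool.Agent.L0h58.CA.Defs
import Pool.Agent.L0h58.RL.Enc

/-!
# Counter automata are simulated by programs
-/

set_option autoImplicit false

namespace Pool.Agent.L0h58.CA

open Pool.Agent.L0h58.RL

/-- a table -/
def tabN (g : ℕ → ℕ) : ℕ → Expr → Expr
  | 0, _ => .const 0
  | m + 1, e => .ite (.const m) e (.const (g m)) (tabN g m e)

theorem eval_tabN {W : ℕ} (x : List Bool) (A : ℕ → Bool) (v : ℕ → ℕ) (b : Bool) (g : ℕ → ℕ)
    (m : ℕ) (e : Expr) (h : e.eval W x A v b < m) :
    (tabN g m e).eval W x A v b = g (e.eval W x A v b) := by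
  induction m with
  | zero => omega
  | succ m ih =>
    unfold tabN
    by_cases hm : m ≤ e.eval W x A v b
    · rw [eval_ite_pos (show (Expr.const m).eval W x A v b ≤ _ from hm)]
      have : e.eval W x A v b = m := by omega
      rw [this]
      rfl
    · rw [eval_ite_neg (show ¬ (Expr.const m).eval W x A v b ≤ _ from hm)]
      exact ih (by omega)

/-- numbers of moves -/
def Move.num : Move → ℕ
  | .dec => 0
  | .stay => 1
  | .inc => 2

theorem Move.app_eq (m : Move) (c : ℕ) : m.app c = c + m.num - 1 := by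
  cases m <;> simp [Move.app, Move.num]

theorem Move.num_le (m : Move) : m.num ≤ 2 := by
  cases m <;> simp [Move.num]

section

variable (U : Counter) (q : ℕ) (E : U.S ≃ Fin q)

/-- decoding of states; `0` stands for the initial state -/
def decS (k : ℕ) : U.S := if h : k - 1 < q ∧ k ≠ 0 then E.symm ⟨k - 1, h.1⟩ else U.start

/-- coding of states -/
def encS (s : U.S) : ℕ := (E s : ℕ) + 1

theorem encS_le (s : U.S) : encS U q E s ≤ q := (E s).2

theorem decS_encS (s : U.S) : decS U q E (encS U q E s) = s := by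
  unfold decS encS
  rw [dif_pos ⟨by rw [Nat.add_sub_cancel]; exact (E s).2, by omega⟩]
  have : (⟨(E s : ℕ) + 1 - 1, by rw [Nat.add_sub_cancel]; exact (E s).2⟩ : Fin q) = E s :=
    Fin.ext (Nat.add_sub_cancel _ _)
  rw [this, Equiv.symm_apply_apply]

theorem decS_zero : decS U q E 0 = U.start := by
  unfold decS
  rw [dif_neg (by simp)]

/-- the pair given by a key -/
def keyδ (K : ℕ) : U.S × Move :=
  U.δ (decS U q E (K / 8)) (decide ((K / 4) % 2 = 1)) (decide ((K / 2) % 2 = 1))
    (decide (K % 2 = 1))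

/-- is the counter zero? -/
def zE : Expr := .ite (.reg 3) (.const 0) (.const 1) (.const 0)

/-- the key -/
def KE : Expr :=
  .add (.mul (.add (.mul (.add (.mul (.reg 2) (.const 2)) (.inp (.reg 1))) (.const 2)) zE)
    (.const 2)) .coin

/-- is there a symbol left? -/
def more (X Y : Expr) : Expr := .ite (.add (.reg 1) (.const 1)) .len X Y

/-- The program which simulates the automaton. -/
def ofCounter : Prog where
  code := [tabN (fun k => (U.acc (decS U q E (k / 2)) (decide (k % 2 = 1))).toNat)
      (2 * (q + 1)) (.add (.mul (.reg 2) (.const 2)) zE),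
    more (.add (.reg 1) (.const 1)) (.reg 1),
    more (tabN (fun K => encS U q E (keyδ U q E K).1) (8 * (q + 1)) KE) (.reg 2),
    more (.sub (.add (.reg 3) (tabN (fun K => (keyδ U q E K).2.num) (8 * (q + 1)) KE)) (.const 1))
      (.reg 3)]
  c := q

variable {U q E}

theorem le_bound (n : ℕ) : q ≤ (ofCounter U q E).bound n := by
  have h1 : q < 2 ^ q := Nat.lt_two_pow_self
  calc q ≤ 2 ^ (q + 1) := by rw [pow_succ]; omega
    _ ≤ (n + 2) ^ (q + 1) := Nat.pow_le_pow_left (by omega) _

theorem eval_zE {W : ℕ} (x : List Bool) (A : ℕ → Bool) (v : ℕ → ℕ) (b : Bool) :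
    zE.eval W x A v b = (decide (v 3 = 0)).toNat := by
  unfold zE
  by_cases h : v 3 = 0
  · rw [eval_ite_pos (by change v 3 ≤ 0; omega), decide_eq_true h]
    rfl
  · rw [eval_ite_neg (by change ¬ v 3 ≤ 0; omega), decide_eq_false h]
    rfl

theorem eval_KE {W : ℕ} {x : List Bool} {A : ℕ → Bool} {v : ℕ → ℕ} {b : Bool}
    (h : v 1 < x.length) : KE.eval W x A v b =
      ((v 2 * 2 + (x[v 1]).toNat) * 2 + (decide (v 3 = 0)).toNat) * 2 + b.toNat := by
  have h1 : KE.eval W x A v b = ((v 2 * 2 + inputAt x (v 1)) * 2 + zE.eval W x A v b) * 2 +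
    b.toNat := rfl
  rw [h1, eval_zE, inputAt_of_lt h]

theorem keyδ_eq {W : ℕ} {x : List Bool} {A : ℕ → Bool} {v : ℕ → ℕ} {b : Bool}
    (h : v 1 < x.length) : keyδ U q E (KE.eval W x A v b) =
      U.δ (decS U q E (v 2)) (x[v 1]) (decide (v 3 = 0)) b := by
  rw [eval_KE h]
  generalize x[v 1] = l
  generalize hz : decide (v 3 = 0) = z
  have hl : l.toNat ≤ 1 := Bool.toNat_le l
  have hz' : z.toNat ≤ 1 := Bool.toNat_le z
  have hb : b.toNat ≤ 1 := Bool.toNat_le b
  unfold keyδ
  have e1 : (((v 2 * 2 + l.toNat) * 2 + z.toNat) * 2 + b.toNat) / 8 = v 2 := by omega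
  have e2 : (((v 2 * 2 + l.toNat) * 2 + z.toNat) * 2 + b.toNat) / 4 % 2 = l.toNat := by omega
  have e3 : (((v 2 * 2 + l.toNat) * 2 + z.toNat) * 2 + b.toNat) / 2 % 2 = z.toNat := by omega
  have e4 : (((v 2 * 2 + l.toNat) * 2 + z.toNat) * 2 + b.toNat) % 2 = b.toNat := by omega
  rw [e1, e2, e3, e4]
  cases l <;> cases z <;> cases b <;> rfl

theorem KE_lt {W : ℕ} {x : List Bool} {A : ℕ → Bool} {v : ℕ → ℕ} {b : Bool}
    (h : v 1 < x.length) (h2 : v 2 ≤ q) : KE.eval W x A v b < 8 * (q + 1) := by
  rw [eval_KE h]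
  have hl : (x[v 1]).toNat ≤ 1 := Bool.toNat_le _
  have hz' : (decide (v 3 = 0)).toNat ≤ 1 := Bool.toNat_le _
  have hb : b.toNat ≤ 1 := Bool.toNat_le b
  omega

/-- the invariant -/
structure Inv (U : Counter) (q : ℕ) (E : U.S ≃ Fin q) (v : ℕ → ℕ) (t : ℕ) (s : U.S × ℕ) : Prop where
  h1 : v 1 = t
  h2 : decS U q E (v 2) = s.1
  h2' : v 2 ≤ q
  h3 : v 3 = s.2
  h3' : s.2 ≤ t

theorem inv_step {A : ℕ → Bool} {x : List Bool} {v : ℕ → ℕ} {t : ℕ} {s : U.S × ℕ}
    (h : Inv U q E v t s) (ht : t < x.length) (b : Bool) :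
    Inv U q E ((ofCounter U q E).step A x v b) (t + 1)
      ((U.δ s.1 x[t] (decide (s.2 = 0)) b).1, (U.δ s.1 x[t] (decide (s.2 = 0)) b).2.app s.2) := by
  have hb := (ofCounter U q E).bound_ge x.length
  have hq := le_bound (U := U) (q := q) (E := E) x.length
  obtain ⟨h1, h2, h2', h3, h3'⟩ := h
  have hlt : v 1 < x.length := by omega
  have hmore : ∀ X Y : Expr, (more X Y).eval ((ofCounter U q E).bound x.length) x A v b =
      X.eval ((ofCounter U q E).bound x.length) x A v b := by
    intro X Y
    exact eval_ite_pos (show v 1 + 1 ≤ x.length by omega)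
  have hkey := keyδ_eq (U := U) (q := q) (E := E) (W := (ofCounter U q E).bound x.length) (A := A)
    (b := b) hlt
  have hx : x[v 1] = x[t] := by
    congr 1
  rw [h2, h3, hx] at hkey
  refine ⟨?_, ?_, ?_, ?_, ?_⟩
  · change min ((more _ _).eval _ x A v b) _ = _
    rw [hmore]
    change min (v 1 + 1) _ = _
    rw [h1, min_eq_left (by omega)]
  · change decS U q E (min ((more _ _).eval _ x A v b) _) = _
    rw [hmore, eval_tabN _ _ _ _ _ _ _ (KE_lt hlt h2')]
    have h4 := encS_le U q E (keyδ U q E (KE.eval ((ofCounter U q E).bound x.length) x A v b)).1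
    rw [min_eq_left (by omega), decS_encS, hkey]
  · change min ((more _ _).eval _ x A v b) _ ≤ _
    rw [hmore, eval_tabN _ _ _ _ _ _ _ (KE_lt hlt h2')]
    exact (min_le_left _ _).trans (encS_le U q E _)
  · change min ((more _ _).eval _ x A v b) _ = _
    rw [hmore]
    change min (v 3 + (tabN _ _ KE).eval _ x A v b - 1) _ = _
    rw [eval_tabN _ _ _ _ _ _ _ (KE_lt hlt h2'), hkey, h3, ← Move.app_eq]
    refine min_eq_left ?_
    rw [Move.app_eq]
    have := (U.δ s.1 x[t] (decide (s.2 = 0)) b).2.num_le
    omega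
  · change Move.app _ s.2 ≤ t + 1
    rw [Move.app_eq]
    have := (U.δ s.1 x[t] (decide (s.2 = 0)) b).2.num_le
    omega

theorem inv_idle {A : ℕ → Bool} {x : List Bool} {v : ℕ → ℕ} {s : U.S × ℕ}
    (h : Inv U q E v x.length s) (b : Bool) :
    Inv U q E ((ofCounter U q E).step A x v b) x.length s := by
  have hb := (ofCounter U q E).bound_ge x.length
  have hq := le_bound (U := U) (q := q) (E := E) x.length
  obtain ⟨h1, h2, h2', h3, h3'⟩ := h
  have hmore : ∀ X Y : Expr, (more X Y).eval ((ofCounter U q E).bound x.length) x A v b =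
      Y.eval ((ofCounter U q E).bound x.length) x A v b := by
    intro X Y
    exact eval_ite_neg (show ¬ v 1 + 1 ≤ x.length by omega)
  refine ⟨?_, ?_, ?_, ?_, h3'⟩
  · change min ((more _ _).eval _ x A v b) _ = _
    rw [hmore]
    change min (v 1) _ = _
    rw [h1, min_eq_left (by omega)]
  · change decS U q E (min ((more _ _).eval _ x A v b) _) = _
    rw [hmore]
    change decS U q E (min (v 2) _) = _
    rw [min_eq_left (by omega), h2]
  · change min ((more _ _).eval _ x A v b) _ ≤ _
    rw [hmore]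
    change min (v 2) _ ≤ _
    exact (min_le_left _ _).trans h2'
  · change min ((more _ _).eval _ x A v b) _ = _
    rw [hmore]
    change min (v 3) _ = _
    rw [h3, min_eq_left (by omega)]

theorem inv_run {A : ℕ → Bool} {x : List Bool} (r : ℕ → Bool) : ∀ t ≤ x.length,
    Inv U q E ((ofCounter U q E).run A x r t) t (U.run x r t) := by
  intro t
  induction t with
  | zero => exact fun _ => ⟨rfl, decS_zero U q E, Nat.zero_le _, rfl, le_rfl⟩
  | succ t ih =>
    intro ht
    have hlt : t < x.length := ht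
    have h1 := inv_step (A := A) (ih (by omega)) hlt (r t)
    have h2 : U.run x r (t + 1) =
        ((U.δ (U.run x r t).1 x[t] (decide ((U.run x r t).2 = 0)) (r t)).1,
          (U.δ (U.run x r t).1 x[t] (decide ((U.run x r t).2 = 0)) (r t)).2.app (U.run x r t).2) := by
      have h3 : x[t]? = some x[t] := List.getElem?_eq_getElem hlt
      simp only [Counter.run, h3]
    rw [h2]
    exact h1

theorem inv_end {A : ℕ → Bool} {x : List Bool} (r : ℕ → Bool) : ∀ t,
    Inv U q E ((ofCounter U q E).run A x r (x.length + t)) x.length (U.run x r x.length) := by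
  intro t
  induction t with
  | zero => exact inv_run r _ le_rfl
  | succ t ih => exact inv_idle ih _

theorem ofCounter_acc (A : ℕ → Bool) (x : List Bool) (r : ℕ → Bool) :
    (ofCounter U q E).Acc A x r ↔ U.Accepts x r := by
  have hb := (ofCounter U q E).bound_ge x.length
  obtain ⟨k, hk⟩ : ∃ k, (ofCounter U q E).bound x.length = x.length + k + 1 :=
    ⟨(ofCounter U q E).bound x.length - x.length - 1, by omega⟩
  obtain ⟨h1, h2, h2', h3, h3'⟩ := inv_end (A := A) (U := U) (q := q) (E := E) (x := x) r k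
  unfold Prog.Acc
  have h5 : (ofCounter U q E).run A x r ((ofCounter U q E).bound x.length) 0 =
      (ofCounter U q E).run A x r (x.length + k + 1) 0 := by rw [← hk]
  rw [h5]
  have hlast : (ofCounter U q E).run A x r (x.length + k + 1) =
      (ofCounter U q E).step A x ((ofCounter U q E).run A x r (x.length + k)) (r (x.length + k)) :=
    rfl
  rw [hlast]
  generalize (ofCounter U q E).run A x r (x.length + k) = v at *
  have hz : (decide (v 3 = 0)).toNat ≤ 1 := Bool.toNat_le _
  have harg : ∀ b : Bool, (Expr.add (.mul (.reg 2) (.const 2)) zE).eval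
      ((ofCounter U q E).bound x.length) x A v b = v 2 * 2 + (decide (v 3 = 0)).toNat := by
    intro b
    change v 2 * 2 + zE.eval _ x A v b = _
    rw [eval_zE]
  have hstep : (ofCounter U q E).step A x v (r (x.length + k)) 0 =
      min ((U.acc (U.run x r x.length).1 (decide ((U.run x r x.length).2 = 0))).toNat)
        ((ofCounter U q E).bound x.length) := by
    change min ((tabN _ _ _).eval _ x A v _) _ = _
    rw [eval_tabN _ _ _ _ _ _ _ (by rw [harg]; omega), harg, ← h2, ← h3]
    generalize decide (v 3 = 0) = z at hz ⊢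
    have e1 : (v 2 * 2 + z.toNat) / 2 = v 2 := by omega
    have e2 : (v 2 * 2 + z.toNat) % 2 = z.toNat := by omega
    rw [e1, e2]
    cases z <;> rfl
  rw [hstep]
  unfold Counter.Accepts
  cases U.acc (U.run x r x.length).1 (decide ((U.run x r x.length).2 = 0)) with
  | true =>
    simp only [Bool.toNat_true]
    rw [min_eq_left (by omega)]
    simp
  | false => simp

/-- the same probability -/
theorem ofCounter_prob (A : ℕ → Bool) (x : List Bool) : (ofCounter U q E).prob A x = U.prob x := by
  have hb := (ofCounter U q E).bound_ge x.length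
  rw [prob_eq]
  have h0 : U.prob x = (cnt fun r : Fin x.length → Bool => U.Accepts x (ext r) : ℝ) /
      2 ^ x.length := rfl
  rw [h0, div_eq_div_iff (by positivity) (by positivity)]
  let e : Fin x.length → Fin ((ofCounter U q E).bound x.length) := fun i => ⟨i, by omega⟩
  have he : Function.Injective e := by
    intro i j hij
    have := congrArg Fin.val hij
    exact Fin.ext this
  have h1 := cnt_comp e he (fun r => U.Accepts x (ext r))
  have hrun : ∀ (r r' : ℕ → Bool) (t : ℕ), t ≤ x.length → (∀ i < x.length, r i = r' i) →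
      U.run x r t = U.run x r' t := by
    intro r r' t ht h
    induction t with
    | zero => rfl
    | succ t ih =>
      have h3 : x[t]? = some x[t] := List.getElem?_eq_getElem (by omega)
      simp only [Counter.run, h3]
      rw [ih (by omega), h t (by omega)]
  have h2 : accs (ofCounter U q E) A x =
      cnt fun r' : Fin ((ofCounter U q E).bound x.length) → Bool => U.Accepts x (ext (r' ∘ e)) := by
    refine cnt_congr fun r' => ?_
    rw [ofCounter_acc]
    unfold Counter.Accepts
    rw [hrun (ext r') (ext (r' ∘ e)) x.length le_rfl fun i hi => by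
      unfold ext
      rw [dif_pos (by omega : i < _), dif_pos hi]
      rfl]
  rw [h2]
  exact_mod_cast h1

end

end Pool.Agent.L0h58.CA
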