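import Pool.Agent.L0h58.RL.Defs

/-!
# One-way one-counter automata with coin tosses

The automaton reads the input from left to right, one symbol in every step, tosses a coin in every
step, and has a finite control and one counter, which contains a natural number and can be tested for
zero.
-/

set_option autoImplicit false

namespace Pool.Agent.L0h58.CA

open Pool.Agent.L0h58.RL

/-- What is done with the counter. -/
inductive Move : Type
  /-- subtract one (nothing happens if the counter is zero) -/
  | dec : Move
  /-- do not change the counter -/
  | stay : Move
  /-- add one -/
  | inc : Move

/-- the new value of the counter -/
def Move.app : Move → ℕ → ℕ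
  | .dec, c => c - 1
  | .stay, c => c
  | .inc, c => c + 1

/-- A real-time one-way one-counter automaton with coin tosses. -/
structure Counter : Type 1 where
  /-- the states -/
  S : Type
  /-- there are finitely many states -/
  [fin : Fintype S]
  /-- the initial state -/
  start : S
  /-- the next state and the change of the counter, given the state, the symbol read, whether the
  counter is zero, and the result of the coin toss -/
  δ : S → Bool → Bool → Bool → S × Move
  /-- whether the automaton accepts, given the last state and whether the counter is zero -/
  acc : S → Bool → Bool

/-- The state and the counter after `t` steps on the input `w`, for the coin tosses `r`. -/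
def Counter.run (U : Counter) (w : List Bool) (r : ℕ → Bool) : ℕ → U.S × ℕ
  | 0 => (U.start, 0)
  | t + 1 =>
    match w[t]? with
    | none => U.run w r t
    | some l => ((U.δ (U.run w r t).1 l (decide ((U.run w r t).2 = 0)) (r t)).1,
        (U.δ (U.run w r t).1 l (decide ((U.run w r t).2 = 0)) (r t)).2.app (U.run w r t).2)

/-- The automaton accepts the input `w` for the coin tosses `r`. -/
def Counter.Accepts (U : Counter) (w : List Bool) (r : ℕ → Bool) : Prop :=
  U.acc (U.run w r w.length).1 (decide ((U.run w r w.length).2 = 0)) = true

open Classical in
/-- The probability that the automaton accepts `w`. -/
noncomputable def Counter.prob (U : Counter) (w : List Bool) : ℝ :=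
  (Fintype.card {r : Fin w.length → Bool // U.Accepts w (ext r)} : ℝ) / 2 ^ w.length

end Pool.Agent.L0h58.CA
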