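import Pool.Agent.L0h58.CA.Univ

/-!
# The reduction of programs to the universal counter automaton
-/

set_option autoImplicit false

namespace Pool.Agent.L0h58.CA

open Pool.Agent.L0h58.RL

/-! ### Codes of lists -/

/-- The number with the digits `l`. -/
def cdl (B : ℕ) : List ℕ → ℕ
  | [] => 0
  | a :: l => a + B * cdl B l

/-- the digits -/
def dec (B u i : ℕ) : ℕ := u / B ^ i % B

theorem cdl_lt {B : ℕ} : ∀ l : List ℕ, (∀ a ∈ l, a < B) → cdl B l < B ^ l.length
  | [], _ => by simp [cdl]
  | a :: l, h => by
    have h1 := cdl_lt l fun b hb => h b (List.mem_cons_of_mem _ hb)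
    have h2 := h a List.mem_cons_self
    have h3 : B * (cdl B l + 1) ≤ B * B ^ l.length := Nat.mul_le_mul_left _ h1
    simp only [cdl, List.length_cons, pow_succ]
    nlinarith

theorem dec_cdl {B : ℕ} (hB : 0 < B) : ∀ (l : List ℕ), (∀ a ∈ l, a < B) → ∀ i,
    dec B (cdl B l) i = l.getD i 0
  | [], _, i => by simp [dec, cdl]
  | a :: l, h, 0 => by
    have h2 := h a List.mem_cons_self
    simp only [dec, cdl, pow_zero, Nat.div_one, List.getD_cons_zero]
    rw [Nat.add_mul_mod_self_left, Nat.mod_eq_of_lt h2]
  | a :: l, h, i + 1 => by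
    have h1 := dec_cdl hB l (fun b hb => h b (List.mem_cons_of_mem _ hb)) i
    have h2 := h a List.mem_cons_self
    rw [List.getD_cons_succ, ← h1]
    simp only [dec, cdl]
    rw [pow_succ', ← Nat.div_div_eq_div_mul, Nat.add_mul_div_left _ _ hB, Nat.div_eq_of_lt h2,
      Nat.zero_add]

theorem dec_zero (B i : ℕ) : dec B 0 i = 0 := by simp [dec]

section

variable (P : Prog) (x : List Bool)

/-- the next contents of the registers, coded -/
def nxt (u : ℕ) (b : Bool) : ℕ :=
  cdl (P.bound x.length + 1) (P.code.map fun e =>
    min (e.eval (P.bound x.length) x empty (dec (P.bound x.length + 1) u) b) (P.bound x.length))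

/-- the number of codes -/
def mm : ℕ := (P.bound x.length + 1) ^ P.code.length

/-- the transitions; in the last one it is tested whether the program accepts -/
def nx (t u : ℕ) (b : Bool) : ℕ :=
  if t < P.bound x.length then nxt P x u b else min (u % (P.bound x.length + 1)) 1

/-- The input for the universal automaton. -/
def red : List Bool := word (let' (mm P x) (nx P x)) ((P.bound x.length + 1) * lay (mm P x))

theorem mm_pos : 0 < mm P x := Nat.pow_pos (Nat.succ_pos _)

theorem nxt_lt (u : ℕ) (b : Bool) : nxt P x u b < mm P x := by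
  have h := cdl_lt (B := P.bound x.length + 1) (P.code.map fun e =>
    min (e.eval (P.bound x.length) x empty (dec (P.bound x.length + 1) u) b) (P.bound x.length))
    (fun a ha => by
      obtain ⟨e, _, rfl⟩ := List.mem_map.1 ha
      exact Nat.lt_succ_of_le (min_le_right _ _))
  rw [List.length_map] at h
  exact h

theorem dec_nxt (u : ℕ) (b : Bool) : dec (P.bound x.length + 1) (nxt P x u b) =
    P.step empty x (dec (P.bound x.length + 1) u) b := by
  funext i
  unfold nxt
  rw [dec_cdl (Nat.succ_pos _) _ (fun a ha => by
      obtain ⟨e, _, rfl⟩ := List.mem_map.1 ha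
      exact Nat.lt_succ_of_le (min_le_right _ _))]
  rw [List.getD_eq_getElem?_getD, List.getElem?_map]
  unfold Prog.step
  cases P.code[i]? with
  | none => rfl
  | some e => rfl

theorem nx_lt {t : ℕ} (h : t < P.bound x.length) (u : ℕ) (b : Bool) :
    nx P x t u b = nxt P x u b := if_pos h

theorem nx_last (u : ℕ) (b : Bool) :
    nx P x (P.bound x.length) u b = min (u % (P.bound x.length + 1)) 1 := if_neg (lt_irrefl _)

theorem nx_le (t u : ℕ) (b : Bool) : nx P x t u b ≤ mm P x := by
  unfold nx
  split_ifs with h
  · exact (nxt_lt P x u b).le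
  · exact (min_le_right _ _).trans (mm_pos P x)

theorem cn_lt (r : ℕ → Bool) (t : ℕ) (ht : t < P.bound x.length + 1) :
    cn (mm P x) (nx P x) r t < mm P x := by
  cases t with
  | zero => exact mm_pos P x
  | succ t =>
    change nx P x t _ _ < _
    unfold nx
    rw [if_pos (by omega)]
    exact nxt_lt P x _ _

theorem dec_cn (r : ℕ → Bool) : ∀ t ≤ P.bound x.length,
    dec (P.bound x.length + 1) (cn (mm P x) (nx P x) r t) =
      P.run empty x (fun t => r (2 * (t * lay (mm P x)) + 1)) t := by
  intro t
  induction t with
  | zero =>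
    intro _
    funext i
    exact dec_zero _ _
  | succ t ih =>
    intro ht
    change dec _ (nx P x t _ _) = P.step empty x (P.run empty x _ t) _
    rw [nx_lt P x (by omega), dec_nxt, ih (by omega)]

theorem red_acc (r : ℕ → Bool) : univ.Accepts (red P x) r ↔
    P.Acc empty x fun t => r (2 * (t * lay (mm P x)) + 1) := by
  unfold red
  rw [accepts_word, lrun_layers (mm P x) (nx P x) (fun t u b _ => nx_le P x t u b) r
    (P.bound x.length + 1) (fun t ht => cn_lt P x r t ht) _ le_rfl]
  change nx P x (P.bound x.length) _ _ ≠ 0 ↔ _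
  rw [nx_last]
  unfold Prog.Acc
  rw [← dec_cn P x r _ le_rfl]
  unfold dec
  rw [pow_zero, Nat.div_one]
  omega

theorem length_red : (red P x).length =
    2 * ((P.bound x.length + 1) * lay (mm P x)) := length_word _ _

theorem lay_pos (M : ℕ) : 0 < lay M := by unfold lay; omega

/-- The acceptance probability is the same. -/
theorem red_prob : univ.prob (red P x) = P.prob empty x := by
  rw [prob_eq]
  have h0 : univ.prob (red P x) =
      (cnt fun r : Fin (red P x).length → Bool => univ.Accepts (red P x) (ext r) : ℝ) /
        2 ^ (red P x).length := rfl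
  rw [h0, div_eq_div_iff (by positivity) (by positivity)]
  have hlt : ∀ i < P.bound x.length, 2 * (i * lay (mm P x)) + 1 < (red P x).length := by
    intro i hi
    rw [length_red]
    have h1 : (i + 1) * lay (mm P x) ≤ (P.bound x.length + 1) * lay (mm P x) :=
      Nat.mul_le_mul_right _ (by omega)
    have h2 := lay_pos (mm P x)
    have h3 : (i + 1) * lay (mm P x) = i * lay (mm P x) + lay (mm P x) := by ring
    omega
  let e : Fin (P.bound x.length) → Fin (red P x).length :=
    fun i => ⟨2 * (i * lay (mm P x)) + 1, hlt i i.2⟩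
  have he : Function.Injective e := by
    intro i j hij
    have h1 := congrArg Fin.val hij
    change 2 * ((i : ℕ) * lay (mm P x)) + 1 = 2 * (j * lay (mm P x)) + 1 at h1
    have h2 : (i : ℕ) * lay (mm P x) = j * lay (mm P x) := by omega
    exact Fin.ext (Nat.eq_of_mul_eq_mul_right (lay_pos _) h2)
  have h1 := cnt_comp e he (fun r => P.Acc empty x (ext r))
  have h2 : (cnt fun r : Fin (red P x).length → Bool => univ.Accepts (red P x) (ext r)) =
      cnt fun r' : Fin (red P x).length → Bool => P.Acc empty x (ext (r' ∘ e)) := by
    refine cnt_congr fun r' => ?_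
    rw [red_acc]
    refine P.acc_congr x (fun _ _ => rfl) fun i hi => ?_
    unfold ext
    rw [dif_pos (hlt i hi), dif_pos hi]
    rfl
  rw [h2]
  unfold accs
  exact_mod_cast h1

end

/-! ### The reduction is computable in logarithmic space -/

/-- a code of a list of expressions -/
def cdE (BE : Expr) : List Expr → Expr
  | [] => .const 0
  | e :: l => .add e (.mul BE (cdE BE l))

theorem eval_cdE {W : ℕ} (x : List Bool) (A : ℕ → Bool) (v : ℕ → ℕ) (b : Bool) (BE : Expr) :
    ∀ l : List Expr, (cdE BE l).eval W x A v b =
      cdl (BE.eval W x A v b) (l.map fun e => e.eval W x A v b)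
  | [] => rfl
  | e :: l => by
    simp only [cdE, Expr.eval, List.map_cons, cdl, eval_cdE x A v b BE l]

/-- Substitution of the digits of `U` for the registers, and of `b` for the random bit. -/
def dg (BE U : Expr) (b : ℕ) : Expr → Expr
  | .const a => .const a
  | .reg i => .mod (.div U (powE BE i)) BE
  | .len => .len
  | .coin => .const b
  | .add e f => .add (dg BE U b e) (dg BE U b f)
  | .sub e f => .sub (dg BE U b e) (dg BE U b f)
  | .mul e f => .mul (dg BE U b e) (dg BE U b f)
  | .div e f => .div (dg BE U b e) (dg BE U b f)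
  | .mod e f => .mod (dg BE U b e) (dg BE U b f)
  | .ite e f g h => .ite (dg BE U b e) (dg BE U b f) (dg BE U b g) (dg BE U b h)
  | .inp e => .inp (dg BE U b e)
  | .orc _ => .const 0

theorem eval_dg {W W' B u : ℕ} {x : List Bool} {A' : ℕ → Bool} {v' : ℕ → ℕ} {b' b : Bool}
    {BE U : Expr} (hB : BE.eval W' x A' v' b' = B) (hU : U.eval W' x A' v' b' = u) (e : Expr) :
    (dg BE U b.toNat e).eval W' x A' v' b' = e.eval W x empty (dec B u) b := by
  induction e with
  | const a => rfl
  | reg i => simp only [dg, Expr.eval, eval_powE, hB, hU, dec]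
  | len => rfl
  | coin => rfl
  | add e f he hf => simp only [dg, Expr.eval, he, hf]
  | sub e f he hf => simp only [dg, Expr.eval, he, hf]
  | mul e f he hf => simp only [dg, Expr.eval, he, hf]
  | div e f he hf => simp only [dg, Expr.eval, he, hf]
  | mod e f he hf => simp only [dg, Expr.eval, he, hf]
  | ite e f g k he hf hg hk => simp only [dg, Expr.eval, he, hf, hg, hk]
  | inp e he => simp only [dg, Expr.eval, he]
  | orc e he => rfl

section

variable (P : Prog)

/-- the bound -/
def wE : Expr := bdE P.c .len

/-- the base -/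
def bE : Expr := .add (wE P) (.const 1)

/-- the number of codes -/
def mE : Expr := powE (bE P) P.code.length

/-- the length of a layer -/
def layE : Expr := .add (.const 1) (.mul (mE P) (.mul (.const 4) (.add (mE P) (.const 1))))

/-- the length of the word -/
def lnE : Expr := .mul (.const 2) (.mul (bE P) (layE P))

/-- the next contents -/
def nxE (t u : Expr) (b : Bool) : Expr :=
  .ite (.add t (.const 1)) (wE P)
    (cdE (bE P) (P.code.map fun e => capE (dg (bE P) u b.toNat e) (wE P)))
    (.ite (.const 1) (.mod u (bE P)) (.const 1) (.const 0))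

variable {P}

variable {W : ℕ} {x : List Bool} {A : ℕ → Bool} {v : ℕ → ℕ} {b : Bool}

theorem eval_wE : (wE P).eval W x A v b = P.bound x.length :=
  eval_bdE x A v b .len P (W := W) (n := x.length) rfl

theorem eval_bE : (bE P).eval W x A v b = P.bound x.length + 1 := by
  change (wE P).eval W x A v b + 1 = _
  rw [eval_wE]

theorem eval_mE : (mE P).eval W x A v b = mm P x := by
  unfold mE mm
  rw [eval_powE, eval_bE]

theorem eval_layE : (layE P).eval W x A v b = lay (mm P x) := by
  change 1 + (mE P).eval W x A v b * (4 * ((mE P).eval W x A v b + 1)) = _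
  rw [eval_mE]
  rfl

theorem eval_lnE : (lnE P).eval W x A v b = (red P x).length := by
  change 2 * ((bE P).eval W x A v b * (layE P).eval W x A v b) = _
  rw [eval_bE, eval_layE, length_red]

theorem eval_nxE {t u : ℕ} {T U : Expr} (c : Bool) (hT : T.eval W x A v b = t)
    (hU : U.eval W x A v b = u) : (nxE P T U c).eval W x A v b = nx P x t u c := by
  unfold nxE nx
  by_cases h : t < P.bound x.length
  · rw [if_pos h, eval_ite_pos (by
      rw [eval_wE]
      change T.eval W x A v b + 1 ≤ _
      omega), eval_cdE, eval_bE, List.map_map]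
    unfold nxt
    congr 1
    refine List.map_congr_left fun e _ => ?_
    simp only [Function.comp]
    rw [eval_capE, eval_wE, eval_dg (W := P.bound x.length) eval_bE hU]
  · rw [if_neg h, eval_ite_neg (by
      rw [eval_wE]
      change ¬ T.eval W x A v b + 1 ≤ _
      omega)]
    by_cases h1 : 1 ≤ u % (P.bound x.length + 1)
    · rw [eval_ite_pos (by
        change 1 ≤ U.eval W x A v b % (bE P).eval W x A v b
        rw [hU, eval_bE]
        exact h1), min_eq_right h1]
      rfl
    · rw [eval_ite_neg (by
        change ¬ 1 ≤ U.eval W x A v b % (bE P).eval W x A v b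
        rw [hU, eval_bE]
        exact h1), min_eq_left (by omega)]
      change 0 = _
      omega

variable (P)

/-- the position in the layer -/
def rhoE (e : Expr) : Expr := .mod (.div e (.const 2)) (layE P)

/-- four times the length of a part of a block -/
def fourE : Expr := .mul (.const 4) (.add (mE P) (.const 1))

/-- the position in the part of the block -/
def jE (e : Expr) : Expr :=
  .mod (.mod (.sub (rhoE P e) (.const 1)) (fourE P)) (.add (mE P) (.const 1))

/-- the number of the part of the block -/
def pE (e : Expr) : Expr :=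
  .div (.mod (.sub (rhoE P e) (.const 1)) (fourE P)) (.add (mE P) (.const 1))

/-- the number of the block -/
def uE (e : Expr) : Expr := .div (.sub (rhoE P e) (.const 1)) (fourE P)

/-- the number of the layer -/
def tE (e : Expr) : Expr := .div (.div e (.const 2)) (layE P)

/-- the value -/
def vlE (e : Expr) : Expr :=
  .ite (pE P e) (.const 1) (uE P e)
    (.ite (pE P e) (.const 2) (nxE P (tE P e) (uE P e) false) (nxE P (tE P e) (uE P e) true))

/-- the symbols of the word -/
def syE (e : Expr) : Expr :=
  .ite (.add e (.const 1)) (lnE P)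
    (.ite (rhoE P e) (.const 0) (.const 1)
      (.ite (mE P) (jE P e) (.ite (.mod e (.const 2)) (.const 0) (.const 1) (.const 0))
        (.ite (.mod e (.const 2)) (.const 0) (.const 0)
          (.ite (.add (jE P e) (.const 1)) (vlE P e) (.const 1) (.const 0)))))
    (.const 2)

theorem inputAt_word (g : ℕ → Bool × Bool) (N i : ℕ) : inputAt (word g N) i =
    if i < 2 * N then (if i % 2 = 0 then (g (i / 2)).1 else (g (i / 2)).2).toNat else 2 := by
  split_ifs with h h1
  · unfold inputAt
    rw [word_get g N i h, if_pos h1]
  · unfold inputAt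
    rw [word_get g N i h, if_neg h1]
  · exact inputAt_of_ge (by rw [length_word]; omega)

theorem eval_syE (e : Expr) :
    (syE P e).eval W x A v b = inputAt (red P x) (e.eval W x A v b) := by
  generalize hi : e.eval W x A v b = i
  have hrho : (rhoE P e).eval W x A v b = (i / 2) % lay (mm P x) := by
    change (e.eval W x A v b / 2) % (layE P).eval W x A v b = _
    rw [hi, eval_layE]
  have hfour : (fourE P).eval W x A v b = 4 * (mm P x + 1) := by
    change 4 * ((mE P).eval W x A v b + 1) = _
    rw [eval_mE]
  have hM : (Expr.add (mE P) (.const 1)).eval W x A v b = mm P x + 1 := by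
    change (mE P).eval W x A v b + 1 = _
    rw [eval_mE]
  have hj : (jE P e).eval W x A v b =
      ((i / 2) % lay (mm P x) - 1) % (4 * (mm P x + 1)) % (mm P x + 1) := by
    change (((rhoE P e).eval W x A v b - 1) % (fourE P).eval W x A v b) %
      (Expr.add (mE P) (.const 1)).eval W x A v b = _
    rw [hrho, hfour, hM]
  have hp : (pE P e).eval W x A v b =
      ((i / 2) % lay (mm P x) - 1) % (4 * (mm P x + 1)) / (mm P x + 1) := by
    change (((rhoE P e).eval W x A v b - 1) % (fourE P).eval W x A v b) /
      (Expr.add (mE P) (.const 1)).eval W x A v b = _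
    rw [hrho, hfour, hM]
  have hu : (uE P e).eval W x A v b =
      ((i / 2) % lay (mm P x) - 1) / (4 * (mm P x + 1)) := by
    change ((rhoE P e).eval W x A v b - 1) / (fourE P).eval W x A v b = _
    rw [hrho, hfour]
  have ht : (tE P e).eval W x A v b = (i / 2) / lay (mm P x) := by
    change (e.eval W x A v b / 2) / (layE P).eval W x A v b = _
    rw [hi, eval_layE]
  have hv : (vlE P e).eval W x A v b =
      val (nx P x) ((i / 2) / lay (mm P x)) (((i / 2) % lay (mm P x) - 1) / (4 * (mm P x + 1)))
        (((i / 2) % lay (mm P x) - 1) % (4 * (mm P x + 1)) / (mm P x + 1)) := by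
    unfold vlE val
    rw [← hp]
    by_cases h1 : (pE P e).eval W x A v b < 2
    · rw [if_pos h1, eval_ite_pos (by
        change _ ≤ 1
        omega), hu]
    · rw [if_neg h1, eval_ite_neg (by
        change ¬ _ ≤ 1
        omega)]
      by_cases h2 : (pE P e).eval W x A v b = 2
      · rw [if_pos h2, eval_ite_pos (by
          change _ ≤ 2
          omega), eval_nxE false ht hu]
      · rw [if_neg h2, eval_ite_neg (by
          change ¬ _ ≤ 2
          omega), eval_nxE true ht hu]
  have hmod : (Expr.mod e (.const 2)).eval W x A v b = i % 2 := by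
    change e.eval W x A v b % 2 = _
    rw [hi]
  have hl := length_red P x
  unfold red at hl ⊢
  rw [inputAt_word]
  rw [length_word] at hl
  have hln : (lnE P).eval W x A v b = 2 * ((P.bound x.length + 1) * lay (mm P x)) := by
    rw [eval_lnE, length_red]
  unfold syE
  by_cases h0 : i < 2 * ((P.bound x.length + 1) * lay (mm P x))
  · rw [if_pos h0, eval_ite_pos (by
      rw [hln]
      change e.eval W x A v b + 1 ≤ _
      omega)]
    unfold let'
    rw [← hv, ← hj, ← hrho]
    by_cases h1 : (rhoE P e).eval W x A v b = 0
    · rw [if_pos h1, eval_ite_pos (by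
        rw [h1]
        exact Nat.zero_le _)]
      split_ifs <;> rfl
    · rw [if_neg h1, eval_ite_neg (by
        change ¬ _ ≤ 0
        omega)]
      have hjlt : (jE P e).eval W x A v b < mm P x + 1 := by
        rw [hj]
        exact Nat.mod_lt _ (Nat.succ_pos _)
      by_cases h2 : (jE P e).eval W x A v b = mm P x
      · rw [if_pos h2, eval_ite_pos (by
          rw [eval_mE, h2])]
        by_cases h3 : i % 2 = 0
        · rw [if_pos h3, eval_ite_pos (by
            rw [hmod, h3]
            exact Nat.zero_le _)]
          rfl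
        · rw [if_neg h3, eval_ite_neg (by
            rw [hmod]
            change ¬ _ ≤ 0
            omega)]
          rfl
      · rw [if_neg h2, eval_ite_neg (by
          rw [eval_mE]
          omega)]
        by_cases h3 : i % 2 = 0
        · rw [if_pos h3, eval_ite_pos (by
            rw [hmod, h3]
            exact Nat.zero_le _)]
          split_ifs <;> rfl
        · rw [if_neg h3, eval_ite_neg (by
            rw [hmod]
            change ¬ _ ≤ 0
            omega)]
          by_cases h4 : (jE P e).eval W x A v b < (vlE P e).eval W x A v b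
          · rw [if_pos h4, eval_ite_pos (by
              change (jE P e).eval W x A v b + 1 ≤ _
              omega)]
            rfl
          · rw [if_neg h4, eval_ite_neg (by
              change ¬ (jE P e).eval W x A v b + 1 ≤ _
              omega)]
            rfl
  · rw [if_neg h0, eval_ite_neg (by
      rw [hln]
      change ¬ e.eval W x A v b + 1 ≤ _
      omega)]
    rfl

/-- the exponent for the length of the word -/
def eE : ℕ := (P.c + 2) + (4 + 2 * ((P.c + 2) * P.code.length)) + 2

theorem length_red_le (P : Prog) (x : List Bool) :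
    (red P x).length + 2 ≤ (x.length + 2) ^ eE P := by
  rw [length_red]
  have hn : 2 ≤ x.length + 2 := by omega
  have hB : P.bound x.length + 1 ≤ (x.length + 2) ^ (P.c + 2) := by
    have h1 := P.bound_ge x.length
    have h2 : (x.length + 2) ^ (P.c + 2) = P.bound x.length * (x.length + 2) := pow_succ _ _
    rw [h2]
    nlinarith
  have hM : mm P x ≤ (x.length + 2) ^ ((P.c + 2) * P.code.length) := by
    unfold mm
    rw [pow_mul]
    exact Nat.pow_le_pow_left hB _
  have hM0 := mm_pos P x
  generalize hX : (x.length + 2) ^ ((P.c + 2) * P.code.length) = X at hM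
  generalize hY : (x.length + 2) ^ (P.c + 2) = Y at hB
  have e1 : (x.length + 2) ^ eE P = Y * ((x.length + 2) ^ 4 * X ^ 2) * (x.length + 2) ^ 2 := by
    rw [← hX, ← hY]
    unfold eE
    ring
  have h4 : 2 ^ 4 ≤ (x.length + 2) ^ 4 := Nat.pow_le_pow_left hn _
  have h2 : 2 ^ 2 ≤ (x.length + 2) ^ 2 := Nat.pow_le_pow_left hn _
  have hlay : lay (mm P x) ≤ (x.length + 2) ^ 4 * X ^ 2 := by
    calc lay (mm P x) ≤ 16 * (mm P x) ^ 2 := by unfold lay; nlinarith
      _ ≤ (x.length + 2) ^ 4 * X ^ 2 := Nat.mul_le_mul h4 (Nat.pow_le_pow_left hM _)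
  have h5 : (P.bound x.length + 1) * lay (mm P x) ≤ Y * ((x.length + 2) ^ 4 * X ^ 2) :=
    Nat.mul_le_mul hB hlay
  have h6 : 0 < (P.bound x.length + 1) * lay (mm P x) :=
    Nat.mul_pos (Nat.succ_pos _) (lay_pos _)
  rw [e1]
  calc 2 * ((P.bound x.length + 1) * lay (mm P x)) + 2
      ≤ (Y * ((x.length + 2) ^ 4 * X ^ 2)) * 2 ^ 2 := by omega
    _ ≤ _ := Nat.mul_le_mul_left _ h2

/-- The program which runs `D` on the reduced input. -/
def onRed (D : Prog) : Prog :=
  simProg D 0 (fun _ => false) (eE P * (D.c + 1)) (.const 1) (.const 0) (lnE P) (syE P)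
    (fun _ => .const 0)

theorem conds_onRed (D : Prog) (x : List Bool) (A : ℕ → Bool) :
    Conds D A (eE P * (D.c + 1)) (.const 1) (.const 0) (lnE P) (syE P) (fun _ => .const 0)
      x 0 (red P x) empty where
  scan := no_scan'
  stop := no_scan
  len := by
    intro v b _
    exact eval_lnE
  inp := by
    intro v b _ e
    exact eval_syE P e
  orc := by
    intro v b _ e _
    rfl
  time := by
    have h1 := length_red_le P x
    have h3 : D.bound (red P x).length ≤ (x.length + 2) ^ (eE P * (D.c + 1)) := by
      rw [pow_mul]
      exact Nat.pow_le_pow_left h1 _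
    have h4 : 1 ≤ (x.length + 2) ^ (eE P * (D.c + 1)) := Nat.one_le_pow _ _ (by omega)
    rw [pow_succ]
    nlinarith

theorem onRed_acc (D : Prog) (x : List Bool) (A : ℕ → Bool) (r : ℕ → Bool) :
    (onRed P D).Acc A x r ↔ D.Acc empty (red P x) r := by
  have h := simProg_acc (A' := A) 0 (fun _ => false) (Nat.zero_le _) (conds_onRed P D x A) r
  have h1 : (fun t => r (0 + t)) = r := funext fun t => by rw [Nat.zero_add]
  rw [h1] at h
  exact h

theorem onRed_prob (D : Prog) (x : List Bool) (A : ℕ → Bool) :
    (onRed P D).prob A x = D.prob empty (red P x) :=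
  simProg_prob _ (conds_onRed P D x A)

end

end Pool.Agent.L0h58.CA
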