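import Pool.Agent.L0h58.CA.Red

/-!
# Completeness of the universal counter automaton
-/

set_option autoImplicit false

namespace Pool.Agent.L0h58.CA

open Pool.Agent.L0h58.RL

/-- The promise problem with the yes-instances `Y` and the no-instances `N` is solvable in
randomized logarithmic space with two-sided error. -/
def PromiseBPL (Y N : Set (List Bool)) : Prop :=
  ∃ P : Prog, (∀ x ∈ Y, 2 / 3 ≤ P.prob empty x) ∧ ∀ x ∈ N, P.prob empty x ≤ 1 / 3

/-- The set `S` is recognized in probabilistic logarithmic space (unbounded error). -/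
def InPL (S : Set (List Bool)) : Prop :=
  ∃ P : Prog, ∀ x, x ∈ S ↔ 1 / 2 < P.prob empty x

theorem exists_prog (V : Counter) : ∃ P : Prog, ∀ w, P.prob empty w = V.prob w := by
  have := V.fin
  exact ⟨ofCounter V (Fintype.card V.S) (Fintype.equivFin V.S), fun w => ofCounter_prob empty w⟩

theorem pullback (P : Prog) {Y N : Set (List Bool)} (h : PromiseL Y N) :
    PromiseL (red P ⁻¹' Y) (red P ⁻¹' N) := by
  obtain ⟨D, h1, h2⟩ := h
  exact ⟨onRed P D, fun x hx => (onRed_acc P D x empty _).2 (h1 _ hx),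
    fun x hx => fun h => h2 _ hx ((onRed_acc P D x empty _).1 h)⟩

theorem PromiseL.mono {Y N Y' N' : Set (List Bool)} (h : PromiseL Y N) (hY : Y' ⊆ Y)
    (hN : N' ⊆ N) : PromiseL Y' N' := by
  obtain ⟨D, h1, h2⟩ := h
  exact ⟨D, fun x hx => h1 x (hY hx), fun x hx => h2 x (hN hx)⟩

theorem one_sided : (∀ Y N, PromiseRL Y N → PromiseL Y N) ↔
    PromiseL {w | 1 / 2 ≤ univ.prob w} {w | univ.prob w = 0} := by
  constructor
  · intro h
    obtain ⟨P, hP⟩ := exists_prog univ
    exact h _ _ ⟨P, fun x hx => by rw [hP]; exact hx, fun x hx => by rw [hP]; exact hx⟩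
  · rintro h Y N ⟨P, hY, hN⟩
    refine PromiseL.mono (pullback P h) (fun x hx => ?_) fun x hx => ?_
    · change 1 / 2 ≤ univ.prob (red P x)
      rw [red_prob]
      exact hY x hx
    · change univ.prob (red P x) = 0
      rw [red_prob]
      exact hN x hx

theorem two_sided : (∀ Y N, PromiseBPL Y N → PromiseL Y N) ↔
    PromiseL {w | 2 / 3 ≤ univ.prob w} {w | univ.prob w ≤ 1 / 3} := by
  constructor
  · intro h
    obtain ⟨P, hP⟩ := exists_prog univ
    exact h _ _ ⟨P, fun x hx => by rw [hP]; exact hx, fun x hx => by rw [hP]; exact hx⟩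
  · rintro h Y N ⟨P, hY, hN⟩
    refine PromiseL.mono (pullback P h) (fun x hx => ?_) fun x hx => ?_
    · change 2 / 3 ≤ univ.prob (red P x)
      rw [red_prob]
      exact hY x hx
    · change univ.prob (red P x) ≤ 1 / 3
      rw [red_prob]
      exact hN x hx

theorem inL_iff_promiseL (S : Set (List Bool)) : InL empty S ↔ PromiseL S Sᶜ :=
  ⟨fun ⟨P, h⟩ => ⟨P, fun x hx => (h x).1 hx, fun x hx hacc => hx ((h x).2 hacc)⟩,
    fun ⟨P, h1, h2⟩ => ⟨P, fun x => ⟨h1 x, fun hacc => by
      by_contra hx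
      exact h2 x hx hacc⟩⟩⟩

theorem unbounded : (∀ S, InPL S → InL empty S) ↔ InL empty {w | 1 / 2 < univ.prob w} := by
  constructor
  · intro h
    obtain ⟨P, hP⟩ := exists_prog univ
    exact h _ ⟨P, fun x => by rw [hP]; exact Iff.rfl⟩
  · rintro h S ⟨P, hP⟩
    rw [inL_iff_promiseL] at h ⊢
    refine PromiseL.mono (pullback P h) (fun x hx => ?_) fun x hx => ?_
    · change 1 / 2 < univ.prob (red P x)
      rw [red_prob]
      exact (hP x).1 hx
    · change ¬ 1 / 2 < univ.prob (red P x)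
      rw [red_prob]
      exact fun h => hx ((hP x).2 h)

end Pool.Agent.L0h58.CA
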