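import Pool.Agent.L0h58.CA.Compile
import Mathlib.Tactic.DeriveFintype

/-!
# The universal counter automaton
-/

set_option autoImplicit false

namespace Pool.Agent.L0h58.CA

open Pool.Agent.L0h58.RL

/-- The states (without the first half of the present letter): the phase, whether the counter
contains the difference with the negative sign, whether the present block is the right one, whether the
right block was read in this layer, and the coin of this layer. -/
structure St where
  /-- the phase -/
  ph : Fin 4
  /-- negative sign -/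
  neg : Bool
  /-- the right block -/
  mat : Bool
  /-- the right block was read -/
  mov : Bool
  /-- the coin -/
  β : Bool
  deriving Fintype

/-- The action of a letter, given by two bits. -/
def lstep (s : St) (l₁ l₂ z b : Bool) : St × Move :=
  match l₁, l₂ with
  | true, true => (⟨0, false, false, false, b⟩, .stay)
  | false, false => (s, .stay)
  | true, false =>
    match s.ph with
    | 0 => (⟨1, s.neg, !s.mov && !s.neg && z, s.mov, s.β⟩, .stay)
    | 1 => (⟨2, s.neg, s.mat, s.mov, s.β⟩, .stay)
    | 2 => (⟨3, s.neg, s.mat, s.mov, s.β⟩, .stay)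
    | 3 => (⟨0, false, false, s.mov || s.mat, s.β⟩, .stay)
  | false, true =>
    if s.mov then (s, .stay) else
      match s.ph with
      | 0 => if s.neg then (s, .inc) else if z then (⟨0, true, s.mat, s.mov, s.β⟩, .inc)
          else (s, .dec)
      | 1 => if s.mat then (s, .stay) else if s.neg then
          (if z then (⟨1, false, s.mat, s.mov, s.β⟩, .inc) else (s, .dec)) else (s, .inc)
      | 2 => if s.mat && !s.β then (s, .inc) else (s, .stay)
      | 3 => if s.mat && s.β then (s, .inc) else (s, .stay)

/-- The universal automaton. -/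
def univ : Counter where
  S := Option Bool × St
  start := (none, ⟨0, false, false, false, false⟩)
  δ := fun s l z b =>
    match s.1 with
    | none => ((some l, s.2), .stay)
    | some l₁ => ((none, (lstep s.2 l₁ l z b).1), (lstep s.2 l₁ l z b).2)
  acc := fun _ z => !z

/-- the word with the letters `g 0, …, g (N - 1)` -/
def word (g : ℕ → Bool × Bool) (N : ℕ) : List Bool :=
  (List.range (2 * N)).map fun i => if i % 2 = 0 then (g (i / 2)).1 else (g (i / 2)).2

theorem length_word (g : ℕ → Bool × Bool) (N : ℕ) : (word g N).length = 2 * N := by simp [word]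

theorem word_get (g : ℕ → Bool × Bool) (N i : ℕ) (h : i < 2 * N) :
    (word g N)[i]? = some (if i % 2 = 0 then (g (i / 2)).1 else (g (i / 2)).2) := by
  rw [List.getElem?_eq_getElem (by rw [length_word]; exact h)]
  simp [word]

/-- the state and the counter after `l` letters -/
def lrun (g : ℕ → Bool × Bool) (r : ℕ → Bool) : ℕ → St × ℕ
  | 0 => (⟨0, false, false, false, false⟩, 0)
  | l + 1 => ((lstep (lrun g r l).1 (g l).1 (g l).2 (decide ((lrun g r l).2 = 0)) (r (2 * l + 1))).1,
      (lstep (lrun g r l).1 (g l).1 (g l).2 (decide ((lrun g r l).2 = 0)) (r (2 * l + 1))).2.app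
        (lrun g r l).2)

theorem run_word (g : ℕ → Bool × Bool) (N : ℕ) (r : ℕ → Bool) : ∀ l ≤ N,
    univ.run (word g N) r (2 * l) = ((none, (lrun g r l).1), (lrun g r l).2) := by
  intro l
  induction l with
  | zero => exact fun _ => rfl
  | succ l ih =>
    intro hl
    have h1 := word_get g N (2 * l) (by omega)
    have h2 := word_get g N (2 * l + 1) (by omega)
    rw [if_pos (by omega), show 2 * l / 2 = l by omega] at h1
    rw [if_neg (by omega), show (2 * l + 1) / 2 = l by omega] at h2
    rw [show 2 * (l + 1) = 2 * l + 1 + 1 by ring]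
    simp only [Counter.run, h1, h2, ih (by omega)]
    rfl

theorem accepts_word (g : ℕ → Bool × Bool) (N : ℕ) (r : ℕ → Bool) :
    univ.Accepts (word g N) r ↔ (lrun g r N).2 ≠ 0 := by
  unfold Counter.Accepts
  rw [length_word, run_word g N r N le_rfl]
  change (!decide ((lrun g r N).2 = 0)) = true ↔ _
  simp

/-! ### Phases -/

/-- the letter `unit` -/
def ustep (p : St × ℕ) : St × ℕ :=
  ((lstep p.1 false true (decide (p.2 = 0)) false).1,
    (lstep p.1 false true (decide (p.2 = 0)) false).2.app p.2)

/-- the letter `marker` -/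
def mstep (p : St × ℕ) : St × ℕ :=
  ((lstep p.1 true false (decide (p.2 = 0)) false).1,
    (lstep p.1 true false (decide (p.2 = 0)) false).2.app p.2)

theorem lrun_phase {g : ℕ → Bool × Bool} {r : ℕ → Bool} {l₀ M v : ℕ} (hv : v ≤ M)
    (h1 : ∀ j < v, g (l₀ + j) = (false, true)) (h2 : ∀ j < M, v ≤ j → g (l₀ + j) = (false, false))
    (h3 : g (l₀ + M) = (true, false)) :
    lrun g r (l₀ + (M + 1)) = mstep (ustep^[v] (lrun g r l₀)) := by
  have a1 : ∀ j ≤ v, lrun g r (l₀ + j) = ustep^[j] (lrun g r l₀) := by
    intro j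
    induction j with
    | zero => exact fun _ => rfl
    | succ j ih =>
      intro hj
      rw [Function.iterate_succ_apply', ← ih (by omega), ← Nat.add_assoc]
      simp only [lrun, h1 j (by omega)]
      rfl
  have a2 : ∀ j, v ≤ j → j ≤ M → lrun g r (l₀ + j) = ustep^[v] (lrun g r l₀) := by
    intro j hj
    induction j, hj using Nat.le_induction with
    | base => exact fun _ => a1 v le_rfl
    | succ j hj ih =>
      intro hj'
      rw [← ih (by omega), ← Nat.add_assoc]
      simp only [lrun, h2 j (by omega) hj]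
      rfl
  rw [← a2 M hv le_rfl, ← Nat.add_assoc]
  simp only [lrun, h3]
  rfl

/-- the action of a block -/
def bstep (u v₀ v₁ : ℕ) (p : St × ℕ) : St × ℕ :=
  mstep (ustep^[v₁] (mstep (ustep^[v₀] (mstep (ustep^[u] (mstep (ustep^[u] p)))))))

theorem ustep_mov (p : St × ℕ) (h : p.1.mov = true) (k : ℕ) : ustep^[k] p = p := by
  induction k with
  | zero => rfl
  | succ k ih =>
    rw [Function.iterate_succ_apply', ih]
    unfold ustep lstep
    simp only [h, if_true]
    rfl

theorem mstep_mk (ph : Fin 4) (neg mat mov β : Bool) (c : ℕ) :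
    mstep (⟨ph, neg, mat, mov, β⟩, c) = (match ph with
    | 0 => ⟨1, neg, !mov && !neg && decide (c = 0), mov, β⟩
    | 1 => ⟨2, neg, mat, mov, β⟩
    | 2 => ⟨3, neg, mat, mov, β⟩
    | 3 => ⟨0, false, false, mov || mat, β⟩, c) := by
  match ph with
  | 0 => rfl
  | 1 => rfl
  | 2 => rfl
  | 3 => rfl

theorem bstep_mov (u v₀ v₁ c : ℕ) (β : Bool) :
    bstep u v₀ v₁ (⟨0, false, false, true, β⟩, c) = (⟨0, false, false, true, β⟩, c) := by
  unfold bstep
  rw [ustep_mov (⟨0, false, false, true, β⟩, c) rfl]
  change mstep (ustep^[v₁] (mstep (ustep^[v₀] (mstep (ustep^[u]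
    (⟨1, false, false, true, β⟩, c)))))) = _
  rw [ustep_mov (⟨1, false, false, true, β⟩, c) rfl]
  change mstep (ustep^[v₁] (mstep (ustep^[v₀] (⟨2, false, false, true, β⟩, c)))) = _
  rw [ustep_mov (⟨2, false, false, true, β⟩, c) rfl]
  change mstep (ustep^[v₁] (⟨3, false, false, true, β⟩, c)) = _
  rw [ustep_mov (⟨3, false, false, true, β⟩, c) rfl]
  rfl

/-- comparison: the number of units is at most the counter -/
theorem phase0_le (β : Bool) (c : ℕ) : ∀ u ≤ c,
    ustep^[u] (⟨0, false, false, false, β⟩, c) = (⟨0, false, false, false, β⟩, c - u) := by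
  intro u
  induction u with
  | zero => exact fun _ => rfl
  | succ u ih =>
    intro hu
    rw [Function.iterate_succ_apply', ih (by omega)]
    have h1 : decide (c - u = 0) = false := decide_eq_false (by omega)
    unfold ustep lstep
    simp only [h1]
    rfl

theorem phase0_gt (β : Bool) (c : ℕ) : ∀ k,
    ustep^[c + (k + 1)] (⟨0, false, false, false, β⟩, c) =
      (⟨0, true, false, false, β⟩, k + 1) := by
  intro k
  induction k with
  | zero =>
    rw [Nat.zero_add, Function.iterate_succ_apply', phase0_le β c c le_rfl, Nat.sub_self]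
    rfl
  | succ k ih =>
    rw [← Nat.add_assoc, Function.iterate_succ_apply', ih]
    rfl

theorem phase1_pos (β : Bool) (c : ℕ) (u : ℕ) :
    ustep^[u] (⟨1, false, false, false, β⟩, c) = (⟨1, false, false, false, β⟩, c + u) := by
  induction u with
  | zero => rfl
  | succ u ih =>
    rw [Function.iterate_succ_apply', ih]
    rfl

theorem phase1_neg (β : Bool) (d : ℕ) : ∀ k ≤ d,
    ustep^[k] (⟨1, true, false, false, β⟩, d) = (⟨1, true, false, false, β⟩, d - k) := by
  intro k
  induction k with
  | zero => exact fun _ => rfl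
  | succ k ih =>
    intro hk
    rw [Function.iterate_succ_apply', ih (by omega)]
    have h1 : decide (d - k = 0) = false := decide_eq_false (by omega)
    unfold ustep lstep
    simp only [h1]
    rfl

theorem phase1_mat (β : Bool) (neg : Bool) (c u : ℕ) :
    ustep^[u] (⟨1, neg, true, false, β⟩, c) = (⟨1, neg, true, false, β⟩, c) := by
  induction u with
  | zero => rfl
  | succ u ih =>
    rw [Function.iterate_succ_apply', ih]
    rfl

/-- after the second phase the counter is restored -/
theorem phase1_neg_restore (β : Bool) (c k : ℕ) : ∃ neg : Bool,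
    ustep^[c + (k + 1)] (⟨1, true, false, false, β⟩, k + 1) = (⟨1, neg, false, false, β⟩, c) := by
  cases c with
  | zero =>
    refine ⟨true, ?_⟩
    rw [Nat.zero_add, phase1_neg β (k + 1) (k + 1) le_rfl, Nat.sub_self]
  | succ c =>
    refine ⟨false, ?_⟩
    rw [show c + 1 + (k + 1) = c + ((k + 1) + 1) by ring, Function.iterate_add_apply,
      Function.iterate_succ_apply', phase1_neg β (k + 1) (k + 1) le_rfl, Nat.sub_self]
    have h1 : ustep (⟨1, true, false, false, β⟩, 0) = (⟨1, false, false, false, β⟩, 1) := rfl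
    rw [h1, phase1_pos, Nat.add_comm]

theorem phase2_not (neg β mat : Bool) (h : (mat && !β) = false) (c u : ℕ) :
    ustep^[u] (⟨2, neg, mat, false, β⟩, c) = (⟨2, neg, mat, false, β⟩, c) := by
  induction u with
  | zero => rfl
  | succ u ih =>
    rw [Function.iterate_succ_apply', ih]
    unfold ustep lstep
    simp only [h]
    rfl

theorem phase2_yes (neg β mat : Bool) (h : (mat && !β) = true) (c u : ℕ) :
    ustep^[u] (⟨2, neg, mat, false, β⟩, c) = (⟨2, neg, mat, false, β⟩, c + u) := by
  induction u with
  | zero => rfl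
  | succ u ih =>
    rw [Function.iterate_succ_apply', ih]
    unfold ustep lstep
    simp only [h]
    rfl

theorem phase3_not (neg β mat : Bool) (h : (mat && β) = false) (c u : ℕ) :
    ustep^[u] (⟨3, neg, mat, false, β⟩, c) = (⟨3, neg, mat, false, β⟩, c) := by
  induction u with
  | zero => rfl
  | succ u ih =>
    rw [Function.iterate_succ_apply', ih]
    unfold ustep lstep
    simp only [h]
    rfl

theorem phase3_yes (neg β mat : Bool) (h : (mat && β) = true) (c u : ℕ) :
    ustep^[u] (⟨3, neg, mat, false, β⟩, c) = (⟨3, neg, mat, false, β⟩, c + u) := by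
  induction u with
  | zero => rfl
  | succ u ih =>
    rw [Function.iterate_succ_apply', ih]
    unfold ustep lstep
    simp only [h]
    rfl

/-- a wrong block does not change anything -/
theorem bstep_ne (u v₀ v₁ c : ℕ) (β : Bool) (h : u ≠ c) :
    bstep u v₀ v₁ (⟨0, false, false, false, β⟩, c) = (⟨0, false, false, false, β⟩, c) := by
  have key : ∃ neg : Bool, mstep (ustep^[u] (mstep (ustep^[u]
      (⟨0, false, false, false, β⟩, c)))) = (⟨2, neg, false, false, β⟩, c) := by
    rcases Nat.lt_or_ge c u with hlt | hge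
    · obtain ⟨k, rfl⟩ : ∃ k, u = c + (k + 1) := ⟨u - c - 1, by omega⟩
      obtain ⟨neg, hneg⟩ := phase1_neg_restore β c k
      refine ⟨neg, ?_⟩
      rw [phase0_gt, mstep_mk 0 true false false β (k + 1)]
      change mstep (ustep^[c + (k + 1)] (⟨1, true, false, false, β⟩, k + 1)) = _
      rw [hneg, mstep_mk]
    · refine ⟨false, ?_⟩
      rw [phase0_le β c u hge, mstep_mk 0 false false false β (c - u)]
      have h1 : decide (c - u = 0) = false := decide_eq_false (by omega)
      simp only [h1]
      change mstep (ustep^[u] (⟨1, false, false, false, β⟩, c - u)) = _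
      rw [phase1_pos, mstep_mk, Nat.sub_add_cancel hge]
  obtain ⟨neg, hneg⟩ := key
  unfold bstep
  rw [hneg, phase2_not neg β false rfl]
  change mstep (ustep^[v₁] (⟨3, neg, false, false, β⟩, c)) = _
  rw [phase3_not neg β false rfl, mstep_mk]
  rfl

/-- the right block -/
theorem bstep_eq (v₀ v₁ c : ℕ) (β : Bool) :
    bstep c v₀ v₁ (⟨0, false, false, false, β⟩, c) =
      (⟨0, false, false, true, β⟩, if β then v₁ else v₀) := by
  unfold bstep
  rw [phase0_le β c c le_rfl, Nat.sub_self]
  change mstep (ustep^[v₁] (mstep (ustep^[v₀] (mstep (ustep^[c]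
    (⟨1, false, true, false, β⟩, 0)))))) = _
  rw [phase1_mat]
  change mstep (ustep^[v₁] (mstep (ustep^[v₀] (⟨2, false, true, false, β⟩, 0)))) = _
  cases β with
  | false =>
    rw [phase2_yes false false true rfl]
    change mstep (ustep^[v₁] (⟨3, false, true, false, false⟩, 0 + v₀)) = _
    rw [phase3_not false false true rfl, mstep_mk, Nat.zero_add]
    rfl
  | true =>
    rw [phase2_not false true true rfl]
    change mstep (ustep^[v₁] (⟨3, false, true, false, true⟩, 0)) = _
    rw [phase3_yes false true true rfl, mstep_mk, Nat.zero_add]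
    rfl

/-! ### Layers -/

/-- the length of a layer -/
def lay (M : ℕ) : ℕ := 1 + M * (4 * (M + 1))

/-- the values coded in the block `u` of the layer `t` -/
def val (nx : ℕ → ℕ → Bool → ℕ) (t u p : ℕ) : ℕ :=
  if p < 2 then u else if p = 2 then nx t u false else nx t u true

/-- the letters -/
def let' (M : ℕ) (nx : ℕ → ℕ → Bool → ℕ) (l : ℕ) : Bool × Bool :=
  if l % lay M = 0 then (true, true)
  else if (l % lay M - 1) % (4 * (M + 1)) % (M + 1) = M then (true, false)
  else if (l % lay M - 1) % (4 * (M + 1)) % (M + 1) <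
      val nx (l / lay M) ((l % lay M - 1) / (4 * (M + 1)))
        ((l % lay M - 1) % (4 * (M + 1)) / (M + 1)) then (false, true)
  else (false, false)

theorem let_start (M : ℕ) (nx : ℕ → ℕ → Bool → ℕ) (t : ℕ) : let' M nx (t * lay M) = (true, true) := by
  unfold let'
  rw [Nat.mul_mod_left, if_pos rfl]

theorem let_block (M : ℕ) (nx : ℕ → ℕ → Bool → ℕ) {t u p j : ℕ} (hu : u < M) (hp : p < 4)
    (hj : j ≤ M) : let' M nx (t * lay M + 1 + u * (4 * (M + 1)) + p * (M + 1) + j) =
      if j = M then (true, false) else if j < val nx t u p then (false, true)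
      else (false, false) := by
  have hpj : p * (M + 1) + j < 4 * (M + 1) := by
    have : (p + 1) * (M + 1) ≤ 4 * (M + 1) := Nat.mul_le_mul_right _ hp
    nlinarith
  have huj : u * (4 * (M + 1)) + (p * (M + 1) + j) < M * (4 * (M + 1)) := by
    have : (u + 1) * (4 * (M + 1)) ≤ M * (4 * (M + 1)) := Nat.mul_le_mul_right _ hu
    nlinarith
  have hlt : 1 + (u * (4 * (M + 1)) + (p * (M + 1) + j)) < lay M := by
    unfold lay
    omega
  have e0 : t * lay M + 1 + u * (4 * (M + 1)) + p * (M + 1) + j =
      (1 + (u * (4 * (M + 1)) + (p * (M + 1) + j))) + lay M * t := by ring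
  have e1 : (t * lay M + 1 + u * (4 * (M + 1)) + p * (M + 1) + j) % lay M =
      1 + (u * (4 * (M + 1)) + (p * (M + 1) + j)) := by
    rw [e0, Nat.add_mul_mod_self_left, Nat.mod_eq_of_lt hlt]
  have e2 : (t * lay M + 1 + u * (4 * (M + 1)) + p * (M + 1) + j) / lay M = t := by
    rw [e0, Nat.add_mul_div_left _ _ (by unfold lay; omega), Nat.div_eq_of_lt hlt, Nat.zero_add]
  have e3 : (u * (4 * (M + 1)) + (p * (M + 1) + j)) % (4 * (M + 1)) = p * (M + 1) + j := by
    rw [Nat.mul_comm u, Nat.mul_add_mod_self_left, Nat.mod_eq_of_lt hpj]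
  have e4 : (u * (4 * (M + 1)) + (p * (M + 1) + j)) / (4 * (M + 1)) = u := by
    rw [Nat.mul_comm u, Nat.mul_add_div (by omega), Nat.div_eq_of_lt hpj, Nat.add_zero]
  have e5 : (p * (M + 1) + j) % (M + 1) = j := by
    rw [Nat.mul_comm p, Nat.mul_add_mod_self_left, Nat.mod_eq_of_lt (by omega)]
  have e6 : (p * (M + 1) + j) / (M + 1) = p := by
    rw [Nat.mul_comm p, Nat.mul_add_div (by omega), Nat.div_eq_of_lt (by omega), Nat.add_zero]
  unfold let'
  rw [e1, e2, if_neg (by omega), Nat.add_sub_cancel_left, e3, e4, e5, e6]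

theorem lrun_block (M : ℕ) (nx : ℕ → ℕ → Bool → ℕ) (hnx : ∀ t u b, u < M → nx t u b ≤ M)
    (r : ℕ → Bool) {t u : ℕ} (hu : u < M) :
    lrun (let' M nx) r (t * lay M + 1 + (u + 1) * (4 * (M + 1))) =
      bstep u (nx t u false) (nx t u true)
        (lrun (let' M nx) r (t * lay M + 1 + u * (4 * (M + 1)))) := by
  have hph : ∀ p < 4, lrun (let' M nx) r (t * lay M + 1 + u * (4 * (M + 1)) + (p + 1) * (M + 1)) =
      mstep (ustep^[val nx t u p]
        (lrun (let' M nx) r (t * lay M + 1 + u * (4 * (M + 1)) + p * (M + 1)))) := by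
    intro p hp
    have hv : val nx t u p ≤ M := by
      unfold val
      split_ifs
      · exact hu.le
      · exact hnx t u false hu
      · exact hnx t u true hu
    have e : t * lay M + 1 + u * (4 * (M + 1)) + (p + 1) * (M + 1) =
      t * lay M + 1 + u * (4 * (M + 1)) + p * (M + 1) + (M + 1) := by ring
    rw [e]
    refine lrun_phase hv ?_ ?_ ?_
    · intro j hj
      rw [let_block M nx hu hp (by omega), if_neg (by omega), if_pos hj]
    · intro j hj hj'
      rw [let_block M nx hu hp (by omega), if_neg (by omega), if_neg (by omega)]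
    · rw [let_block M nx hu hp le_rfl, if_pos rfl]
  have h0 := hph 0 (by omega)
  have h1 := hph 1 (by omega)
  have h2 := hph 2 (by omega)
  have h3 := hph 3 (by omega)
  have e : t * lay M + 1 + (u + 1) * (4 * (M + 1)) =
    t * lay M + 1 + u * (4 * (M + 1)) + (3 + 1) * (M + 1) := by ring
  rw [e, h3, h2, h1, h0, Nat.zero_mul, Nat.add_zero]
  rfl

theorem lrun_blocks (M : ℕ) (nx : ℕ → ℕ → Bool → ℕ) (hnx : ∀ t u b, u < M → nx t u b ≤ M)
    (r : ℕ → Bool) {t c : ℕ} {β : Bool}
    (h : lrun (let' M nx) r (t * lay M + 1) = (⟨0, false, false, false, β⟩, c)) : ∀ u ≤ M,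
    lrun (let' M nx) r (t * lay M + 1 + u * (4 * (M + 1))) =
      if u ≤ c then (⟨0, false, false, false, β⟩, c)
      else (⟨0, false, false, true, β⟩, nx t c β) := by
  intro u
  induction u with
  | zero =>
    intro _
    rw [if_pos (Nat.zero_le _), Nat.zero_mul]
    exact h
  | succ u ih =>
    intro hu
    rw [lrun_block M nx hnx r (by omega), ih (by omega)]
    rcases lt_trichotomy u c with h1 | h1 | h1
    · rw [if_pos (by omega), if_pos (by omega), bstep_ne _ _ _ _ _ (by omega)]
    · rw [if_pos (by omega), if_neg (by omega), h1, bstep_eq]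
      cases β <;> rfl
    · rw [if_neg (by omega), if_neg (by omega), bstep_mov]

/-- the numbers in the counter after the layers -/
def cn (M : ℕ) (nx : ℕ → ℕ → Bool → ℕ) (r : ℕ → Bool) : ℕ → ℕ
  | 0 => 0
  | t + 1 => nx t (cn M nx r t) (r (2 * (t * lay M) + 1))

theorem lrun_layers (M : ℕ) (nx : ℕ → ℕ → Bool → ℕ) (hnx : ∀ t u b, u < M → nx t u b ≤ M)
    (r : ℕ → Bool) (T : ℕ) (hc : ∀ t < T, cn M nx r t < M) : ∀ t ≤ T,
    (lrun (let' M nx) r (t * lay M)).2 = cn M nx r t := by
  intro t
  induction t with
  | zero =>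
    intro _
    rw [Nat.zero_mul]
    rfl
  | succ t ih =>
    intro ht
    have h1 : lrun (let' M nx) r (t * lay M + 1) =
        (⟨0, false, false, false, r (2 * (t * lay M) + 1)⟩, cn M nx r t) := by
      simp only [lrun, let_start]
      rw [← ih (by omega)]
      rfl
    have h2 := lrun_blocks M nx hnx r h1 M le_rfl
    have hlt := hc t (by omega)
    rw [if_neg (by omega)] at h2
    have e : (t + 1) * lay M = t * lay M + 1 + M * (4 * (M + 1)) := by
      unfold lay
      ring
    rw [e, h2]
    rfl

end Pool.Agent.L0h58.CA
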